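import Pool.Agent.H317.GR.StmC

/-!
# Project GR, C9: commutators in small dimension
-/

set_option autoImplicit false

namespace Pool.Agent.H167.GR

open Matrix Module Pool.Agent.H317.GR
open scoped commutatorElement

/-- homomorphisms and left-normed commutators -/
theorem map_LC {G H : Type} [Group G] [Group H] (φ : G →* H) (x : ℕ → G) (m : ℕ) :
    φ (LC x m) = LC (fun i => φ (x i)) m := by
  induction m with
  | zero => rfl
  | succ m ih => rw [LC, LC, map_commutatorElement, ih]

/-- the restriction of a representation to a stable subspace -/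
def res {K V G : Type} [Field K] [AddCommGroup V] [Module K V] [Group G]
    (ρ : G →* Module.End K V) (W : Submodule K V) (h : ∀ g, ∀ v ∈ W, ρ g v ∈ W) :
    G →* Module.End K W where
  toFun g := (ρ g).restrict (h g)
  map_one' := by
    ext v
    simp
  map_mul' a b := by
    ext v
    simp

theorem res_apply {K V G : Type} [Field K] [AddCommGroup V] [Module K V] [Group G]
    (ρ : G →* Module.End K V) (W : Submodule K V) (h : ∀ g, ∀ v ∈ W, ρ g v ∈ W) (g : G) (v : W) :
    ((res ρ W h g v : W) : V) = ρ g v := rfl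

theorem res_pow_apply {K V G : Type} [Field K] [AddCommGroup V] [Module K V] [Group G]
    (ρ : G →* Module.End K V) (W : Submodule K V) (h : ∀ g, ∀ v ∈ W, ρ g v ∈ W) (g : G) (E : ℕ)
    (v : W) : (((res ρ W h g ^ E) v : W) : V) = (ρ g ^ E) v := by
  rw [← map_pow, ← map_pow, res_apply]

/-- locally finite order implies finite order -/
theorem fin_order {K V : Type} [Field K] [AddCommGroup V] [Module K V] [FiniteDimensional K V]
    (A : Module.End K V) (h : ∀ v, ∃ E : ℕ, 0 < E ∧ (A ^ E) v = v) :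
    ∃ E : ℕ, 0 < E ∧ A ^ E = 1 := by
  classical
  let b := Module.finBasis K V
  choose E hE hv using fun i => h (b i)
  refine ⟨∏ i, E i, Finset.prod_pos fun i _ => hE i, ?_⟩
  refine b.ext fun i => ?_
  obtain ⟨q, hq⟩ := Finset.dvd_prod_of_mem E (Finset.mem_univ i)
  rw [hq, pow_mul]
  have : ∀ s : ℕ, ((A ^ E i) ^ s) (b i) = b i := by
    intro s
    induction s with
    | zero => simp
    | succ s ih => rw [pow_succ, Module.End.mul_apply, hv, ih]
  rw [this q, Module.End.one_apply]

theorem pow_fix {K V : Type} [Field K] [AddCommGroup V] [Module K V] (A : Module.End K V)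
    (v : V) (E s : ℕ) (h : (A ^ E) v = v) : (A ^ (E * s)) v = v := by
  rw [pow_mul]
  induction s with
  | zero => simp
  | succ s ih => rw [pow_succ, Module.End.mul_apply, h, ih]

/-- the subspace of the vectors of finite order -/
def fixS {K V : Type} [Field K] [AddCommGroup V] [Module K V] (A : Module.End K V) :
    Submodule K V where
  carrier := {v | ∃ E : ℕ, 0 < E ∧ (A ^ E) v = v}
  zero_mem' := ⟨1, one_pos, map_zero _⟩
  add_mem' := by
    rintro v w ⟨E, hE, hv⟩ ⟨E', hE', hw⟩
    refine ⟨E * E', Nat.mul_pos hE hE', ?_⟩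
    rw [map_add, pow_fix A v E E' hv]
    rw [mul_comm E E', pow_fix A w E' E hw]
  smul_mem' := by
    rintro c v ⟨E, hE, hv⟩
    exact ⟨E, hE, by rw [map_smul, hv]⟩

/-- the scalar of a quotient of the flag is the only eigenvalue -/
theorem scalar_eq {K V : Type} [Field K] [AddCommGroup V] [Module K V] [FiniteDimensional K V]
    (A : Module.End K V) (F G : Submodule K V) (hFG : F ≤ G) (hne : finrank K F < finrank K G)
    (a l : K) (ha : ∀ v ∈ G, A v - a • v ∈ F) (hl : A.maxGenEigenspace l = ⊤) : a = l := by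
  by_contra hal
  have hT : ∀ s : ℕ, ∀ v ∈ G, ((A - l • (1 : Module.End K V)) ^ s) v - (a - l) ^ s • v ∈ F := by
    intro s
    induction s with
    | zero =>
      intro v _
      simp
    | succ s ih =>
      intro v hv
      have h1 : (A - l • (1 : Module.End K V)) v - (a - l) • v ∈ F := by
        have e : (A - l • (1 : Module.End K V)) v - (a - l) • v = A v - a • v := by
          simp only [LinearMap.sub_apply, LinearMap.smul_apply, Module.End.one_apply, sub_smul]
          abel
        rw [e]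
        exact ha v hv
      have h2 : (A - l • (1 : Module.End K V)) v ∈ G := by
        have := G.add_mem (hFG h1) (G.smul_mem (a - l) hv)
        rwa [sub_add_cancel] at this
      have h3 := ih _ h2
      have h4 := F.smul_mem ((a - l) ^ s) h1
      have h5 := F.add_mem h3 h4
      have e : ((A - l • (1 : Module.End K V)) ^ s) ((A - l • (1 : Module.End K V)) v) -
          (a - l) ^ s • (A - l • (1 : Module.End K V)) v +
          (a - l) ^ s • ((A - l • (1 : Module.End K V)) v - (a - l) • v) =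
          ((A - l • (1 : Module.End K V)) ^ (s + 1)) v - (a - l) ^ (s + 1) • v := by
        rw [pow_succ (A - l • (1 : Module.End K V)) s, Module.End.mul_apply, smul_sub, smul_smul,
          ← pow_succ]
        abel
      rwa [e] at h5
  have hGF : G ≤ F := by
    intro v hv
    have h1 : v ∈ A.maxGenEigenspace l := by
      rw [hl]
      exact Submodule.mem_top
    rw [Module.End.mem_maxGenEigenspace] at h1
    obtain ⟨s, hs⟩ := h1
    have h2 := hT s v hv
    rw [hs, zero_sub] at h2
    have h3 := F.neg_mem h2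
    rw [neg_neg] at h3
    have h4 : (a - l) ^ s ≠ 0 := pow_ne_zero _ (sub_ne_zero.2 hal)
    have h5 := F.smul_mem ((a - l) ^ s)⁻¹ h3
    rwa [smul_smul, inv_mul_cancel₀ h4, one_smul] at h5
  have := Submodule.finrank_mono hGF
  omega

theorem npd_aux (hTRI : S_TRI) (hCLO : S_CLO) (hGEN : S_GEN) (hUNI : S_UNI) (hMUL : S_MUL)
    (K : Type) [Field K] [IsAlgClosed K] (m : ℕ) (hm : 1 ≤ m) (d : ℕ) :
    ∀ (V N : Type) [AddCommGroup V] [Module K V] [FiniteDimensional K V] [Group N]
      (ρ : N →* Module.End K V), (⊤ : Subgroup N).lowerCentralSeries (m + 1) = ⊥ →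
      finrank K V ≤ m + 1 → finrank K V = d → ∀ x : ℕ → N, ∃ E : ℕ, 0 < E ∧ ρ (LC x m) ^ E = 1 := by
  induction d using Nat.strong_induction_on with
  | _ d IH =>
  intro V N _ _ _ _ ρ hN hVm hVd x
  have : Group.IsNilpotent N := Subgroup.nilpotent_iff_lowerCentralSeries.2 ⟨m + 1, hN⟩
  obtain ⟨k, hk, F, hF⟩ := hTRI K V N ρ
  have hF' := hCLO K V N ρ _ F hF
  set N' : Subgroup N := Subgroup.closure (Set.range fun g : N => g ^ k) with hN'def
  let ρ' : N' →* Module.End K V := ρ.comp N'.subtype
  have hρ' : ∀ g : N', ρ' g = ρ (g : N) := fun g => rfl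
  have hN' : (⊤ : Subgroup N').lowerCentralSeries (m + 1) = ⊥ := by
    have h1 : ((⊤ : Subgroup N').lowerCentralSeries (m + 1)).map N'.subtype = ⊥ := by
      rw [Subgroup.top_subtype_lowerCentralSeries, eq_bot_iff, ← hN]
      exact Subgroup.lowerCentralSeries_mono (m + 1) le_top
    rw [← Subgroup.map_bot N'.subtype] at h1
    exact (Subgroup.map_subtype_inj).1 h1
  have : Group.IsNilpotent N' := Subgroup.nilpotent_iff_lowerCentralSeries.2 ⟨m + 1, hN'⟩
  have hFu : TriFlag ρ' Set.univ F := by
    refine ⟨hF'.1, hF'.2.1, hF'.2.2.1, fun g _ i => ?_⟩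
    exact hF'.2.2.2 (g : N) g.2 i
  let y : ℕ → N' := fun i => ⟨x i ^ k, Subgroup.subset_closure ⟨x i, rfl⟩⟩
  have hy : ((LC y m : N') : N) = LC x m ^ (k ^ (m + 1)) := by
    have h1 : ((LC y m : N') : N) = LC (fun i => x i ^ k) m := map_LC N'.subtype y m
    rw [h1]
    exact hMUL N m hN x k
  -- it is enough to treat `LC y m`
  suffices h : ∃ E : ℕ, 0 < E ∧ ρ' (LC y m) ^ E = 1 by
    obtain ⟨E, hE, h1⟩ := h
    refine ⟨k ^ (m + 1) * E, Nat.mul_pos (pow_pos hk _) hE, ?_⟩
    rw [hρ', hy, map_pow] at h1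
    rw [pow_mul]
    exact h1
  by_cases hB : ∀ z : N', ∃ c : K, ∀ i < finrank K V, ∀ v ∈ F (i + 1), ρ' z v - c • v ∈ F i
  · -- one eigenvalue
    have hF0 : F 0 = ⊥ := by
      rw [← Submodule.finrank_eq_zero (R := K)]
      exact hF'.2.1 0 (Nat.zero_le _)
    have hall : ∀ g : N', ∃ c : K, ∀ i, ∀ v ∈ F (i + 1), ρ' g v - c • v ∈ F i := by
      intro g
      obtain ⟨c, hc⟩ := hB g
      refine ⟨c, fun i v hv => ?_⟩
      by_cases hi : i < finrank K V
      · exact hc i hi v hv
      · have h1 : F i = ⊤ := by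
          rw [eq_top_iff, ← hF'.2.2.1]
          exact hF'.1 (not_lt.1 hi)
        rw [h1]
        exact Submodule.mem_top
    have h1 := hUNI K V N' ρ' F hF'.1 hF0 hF'.2.2.1 hall y m hm (finrank K V)
    refine ⟨1, one_pos, ?_⟩
    rw [pow_one]
    ext v
    have h2 := h1 v (by rw [hF'.2.2.1]; exact Submodule.mem_top)
    have h3 : finrank K V - (m + 1) = 0 := by omega
    rw [h3, hF0, Submodule.mem_bot, sub_eq_zero] at h2
    rw [h2, Module.End.one_apply]
  · -- two eigenvalues
    push Not at hB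
    obtain ⟨z, hz⟩ := hB
    have hW : ∀ l : K, (ρ' z).maxGenEigenspace l ≠ ⊤ := by
      intro l hl
      obtain ⟨i, hi, v, hv, hne⟩ := hz l
      obtain ⟨a, ha⟩ := hFu.2.2.2 z (Set.mem_univ z) i
      have hal : a = l := by
        refine scalar_eq (ρ' z) (F i) (F (i + 1)) (hF'.1 (Nat.le_succ i)) ?_ a l ha hl
        rw [hF'.2.1 i hi.le, hF'.2.1 (i + 1) hi]
        exact Nat.lt_succ_self i
      exact hne (hal ▸ ha v hv)
    apply fin_order
    have hle : ∀ l : K, (ρ' z).maxGenEigenspace l ≤ fixS (ρ' (LC y m)) := by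
      intro l v hv
      have hst : ∀ g : N', ∀ v ∈ (ρ' z).maxGenEigenspace l, ρ' g v ∈ (ρ' z).maxGenEigenspace l :=
        fun g v hv => hGEN K V N' ρ' F hFu z g l v hv
      have hlt : finrank K ((ρ' z).maxGenEigenspace l) < finrank K V :=
        Submodule.finrank_lt (hW l)
      obtain ⟨E, hE, h1⟩ := IH _ (hVd ▸ hlt) ((ρ' z).maxGenEigenspace l) N'
        (res ρ' ((ρ' z).maxGenEigenspace l) hst) hN' (by omega) rfl y
      refine ⟨E, hE, ?_⟩
      have h2 := res_pow_apply ρ' ((ρ' z).maxGenEigenspace l) hst (LC y m) E ⟨v, hv⟩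
      rw [h1] at h2
      exact h2.symm
    have htop : fixS (ρ' (LC y m)) = ⊤ := by
      rw [eq_top_iff, ← Module.End.iSup_maxGenEigenspace_eq_top (ρ' z)]
      exact iSup_le hle
    intro v
    have hv : v ∈ fixS (ρ' (LC y m)) := by
      rw [htop]
      exact Submodule.mem_top
    exact hv

/-- **NPD** -/
theorem npd : S_TRI → S_CLO → S_GEN → S_UNI → S_MUL → S_NPD := by
  intro hTRI hCLO hGEN hUNI hMUL K _ _ m hm V N _ _ _ _ ρ hN hV x
  exact npd_aux hTRI hCLO hGEN hUNI hMUL K m hm _ V N ρ hN hV rfl x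

end Pool.Agent.H167.GR
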